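import Pool.Agent.X139.CMJEx

set_option autoImplicit false

open MeasureTheory ProbabilityTheory Pool.Agent.X139.CMJ
open scoped ENNReal

namespace Pool.Agent.Results.MP_f93fdf_pr.NoInfiniteStar

/-- There are laws `ρ j` on `(0, ∞)` such that the Crump-Mode-Jagers process whose inter-birth times
`X(u, j)` are all independent, `X(u, j)` with law `ρ j`, is explosive (it almost surely survives and
explodes in finite time), and almost surely no individual has infinitely many children born before
the explosion. -/
theorem result :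
    ∃ (ρ : ℕ → Measure ℝ≥0∞) (_ : ∀ j, IsProbabilityMeasure (ρ j)),
      (∀ j, ρ j {0} = 0) ∧ (∀ j, ρ j {∞} = 0) ∧
      ∀ᵐ X ∂(timesLaw ρ), (treeInf X).Infinite ∧ tau X < ∞ ∧
        ∀ u ∈ treeInf X, {i : ℕ | i :: u ∈ treeInf X}.Finite := by
  refine ⟨rho, inferInstance, ?_, ?_, ?_⟩
  · intro j
    exact rho_sing j 0 zero_ne_one fun m => pow_ne_zero _ (by simp)
  · intro j
    exact rho_sing j ∞ ENNReal.top_ne_one fun m => ENNReal.pow_ne_top (by simp)
  · filter_upwards [example_main] with X hX
    exact ⟨hX.2.1, hX.1, fun u _ => hX.2.2 u⟩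

end Pool.Agent.Results.MP_f93fdf_pr.NoInfiniteStar
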